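import Pool.Agent.Helper61.BT.Goals

/-!
MP_266b34_co, project BT: infinite sets of generators which generate a finitely generated subgroup
with bounded finite subgroups, in an arbitrary group.
-/

set_option autoImplicit false

namespace Pool.Agent.Helper70.BT

open Pool.Agent.Helper61.BT

universe u

theorem sub (h : ApbStmt.{u}) (Γ : Type u) [Group Γ] (S T : Set Γ) (h1 : (1 : Γ) ∉ S)
    (hTS : T ⊆ S) (hTi : T.Infinite) (hTs : ∀ t ∈ T, t⁻¹ ∈ T)
    (hfg : (Subgroup.closure T).FG)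
    (hN : ∃ N : ℕ, ∀ F : Subgroup Γ, F ≤ Subgroup.closure T → (F : Set Γ).Finite →
      Nat.card F ≤ N) :
    ∃ φ : ℕ → Set Γ,
      (∀ i, ((SimpleGraph.fromRel fun a b : Γ => a⁻¹ * b ∈ S).induce (φ i)).Connected) ∧
      (∀ i j, i ≠ j → Disjoint (φ i) (φ j)) ∧
      ∀ i j, i ≠ j → ∃ a ∈ φ i, ∃ b ∈ φ j,
        (SimpleGraph.fromRel fun a b : Γ => a⁻¹ * b ∈ S).Adj a b := by
  obtain ⟨N, hN⟩ := hN
  have hadj : ∀ a b : Subgroup.closure T,
      (SimpleGraph.fromRel fun a b : Subgroup.closure T =>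
        a⁻¹ * b ∈ {x : Subgroup.closure T | (x : Γ) ∈ T}).Adj a b →
      (SimpleGraph.fromRel fun a b : Γ => a⁻¹ * b ∈ S).Adj (a : Γ) (b : Γ) := by
    intro a b hab
    rw [SimpleGraph.fromRel_adj] at hab ⊢
    refine ⟨fun he => hab.1 (Subtype.ext he), ?_⟩
    rcases hab.2 with h2 | h2
    · exact Or.inl (hTS h2)
    · exact Or.inr (hTS h2)
  obtain ⟨φ, f1, f2, f3⟩ := h (Subgroup.closure T) ((Group.fg_iff_subgroup_fg _).2 hfg)
    ⟨N, fun F hF => by
      have h2 := hN (F.map (Subgroup.closure T).subtype) (by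
        rintro _ ⟨x, _, rfl⟩
        exact x.2) (by
        have h3 : ((F.map (Subgroup.closure T).subtype : Subgroup Γ) : Set Γ) =
            (Subgroup.closure T).subtype '' (F : Set (Subgroup.closure T)) :=
          Subgroup.coe_map _ _
        rw [h3]
        exact hF.image _)
      have h4 : Nat.card F = Nat.card (F.map (Subgroup.closure T).subtype) :=
        Nat.card_congr (Subgroup.equivMapOfInjective F _
          (Subgroup.closure T).subtype_injective).toEquiv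
      rw [h4]
      exact h2⟩
    {x : Subgroup.closure T | (x : Γ) ∈ T} Subgroup.closure_closure_coe_preimage
    (fun s hs => hTs _ hs) (fun h2 => h1 (hTS h2)) (by
      intro hfin
      refine hTi ((hfin.image (fun x : Subgroup.closure T => (x : Γ))).subset ?_)
      intro t ht
      exact ⟨⟨t, Subgroup.subset_closure ht⟩, ht, rfl⟩)
  refine ⟨fun i => (fun x : Subgroup.closure T => (x : Γ)) '' φ i, ?_, ?_, ?_⟩
  · intro i
    let f : ((SimpleGraph.fromRel fun a b : Subgroup.closure T =>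
        a⁻¹ * b ∈ {x : Subgroup.closure T | (x : Γ) ∈ T}).induce (φ i)) →g
        ((SimpleGraph.fromRel fun a b : Γ => a⁻¹ * b ∈ S).induce
          ((fun x : Subgroup.closure T => (x : Γ)) '' φ i)) :=
      ⟨fun x => ⟨((x : Subgroup.closure T) : Γ), ⟨x.1, x.2, rfl⟩⟩, fun {a b} hab => hadj _ _ hab⟩
    refine (f1 i).map f ?_
    rintro ⟨_, x, hx, rfl⟩
    exact ⟨⟨x, hx⟩, rfl⟩
  · intro i j hij
    rw [Set.disjoint_left]
    rintro _ ⟨x, hx, rfl⟩ ⟨y, hy, hxy⟩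
    have : y = x := Subtype.ext hxy
    rw [this] at hy
    exact Set.disjoint_left.1 (f2 i j hij) hx hy
  · intro i j hij
    obtain ⟨a, ha, b, hb, hab⟩ := f3 i j hij
    exact ⟨a, ⟨a, ha, rfl⟩, b, ⟨b, hb, rfl⟩, hadj _ _ hab⟩

theorem finite_sub {Γ : Type u} [Group Γ] (S : Set Γ) (x : Γ) (hx : x ∈ Subgroup.closure S) :
    ∃ S₀ : Set Γ, S₀.Finite ∧ S₀ ⊆ S ∧ x ∈ Subgroup.closure S₀ := by
  refine Subgroup.closure_induction (p := fun x _ => ∃ S₀ : Set Γ, S₀.Finite ∧ S₀ ⊆ S ∧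
    x ∈ Subgroup.closure S₀) ?_ ?_ ?_ ?_ hx
  · intro x hx
    exact ⟨{x}, Set.finite_singleton x, Set.singleton_subset_iff.2 hx,
      Subgroup.subset_closure rfl⟩
  · exact ⟨∅, Set.finite_empty, Set.empty_subset _, Subgroup.one_mem _⟩
  · rintro x y _ _ ⟨A, hA, hAS, hxA⟩ ⟨B, hB, hBS, hyB⟩
    exact ⟨A ∪ B, hA.union hB, Set.union_subset hAS hBS, Subgroup.mul_mem _
      (Subgroup.closure_mono Set.subset_union_left hxA)
      (Subgroup.closure_mono Set.subset_union_right hyB)⟩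
  · rintro x _ ⟨A, hA, hAS, hxA⟩
    exact ⟨A, hA, hAS, Subgroup.inv_mem _ hxA⟩

/-- Infinitely many generators in a finitely generated subgroup. -/
theorem sub2 (h : ApbStmt.{u}) (Γ : Type u) [Group Γ]
    (hL : ∀ L : Subgroup Γ, L.FG → ∃ N : ℕ, ∀ F : Subgroup Γ, F ≤ L → (F : Set Γ).Finite →
      Nat.card F ≤ N) (S : Set Γ) (hS : Subgroup.closure S = ⊤) (hs : ∀ s ∈ S, s⁻¹ ∈ S)
    (h1 : (1 : Γ) ∉ S) (K : Subgroup Γ) (hK : K.FG) (hi : (S ∩ (K : Set Γ)).Infinite) :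
    ∃ φ : ℕ → Set Γ,
      (∀ i, ((SimpleGraph.fromRel fun a b : Γ => a⁻¹ * b ∈ S).induce (φ i)).Connected) ∧
      (∀ i j, i ≠ j → Disjoint (φ i) (φ j)) ∧
      ∀ i j, i ≠ j → ∃ a ∈ φ i, ∃ b ∈ φ j,
        (SimpleGraph.fromRel fun a b : Γ => a⁻¹ * b ∈ S).Adj a b := by
  classical
  obtain ⟨B, hB⟩ := hK
  have h2 : ∀ x : Γ, ∃ S₀ : Set Γ, S₀.Finite ∧ S₀ ⊆ S ∧ x ∈ Subgroup.closure S₀ := fun x =>
    finite_sub S x (by rw [hS]; exact Subgroup.mem_top x)
  choose A hA hAS hxA using h2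
  obtain ⟨S₀, hS₀⟩ : ∃ S₀ : Set Γ, S₀ = ⋃ b ∈ (B : Set Γ), A b := ⟨_, rfl⟩
  have f1 : S₀.Finite := by
    rw [hS₀]; exact B.finite_toSet.biUnion fun b _ => hA b
  have f2 : S₀ ⊆ S := by
    rw [hS₀]; exact Set.iUnion₂_subset fun b _ => hAS b
  have f3 : K ≤ Subgroup.closure S₀ := by
    rw [← hB, Subgroup.closure_le]
    intro b hb
    refine Subgroup.closure_mono ?_ (hxA b)
    rw [hS₀]
    exact Set.subset_biUnion_of_mem (u := A) hb
  obtain ⟨T, hT⟩ : ∃ T : Set Γ, T = (S₀ ∪ {x | x⁻¹ ∈ S₀}) ∪ (S ∩ (K : Set Γ)) := ⟨_, rfl⟩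
  have g1 : T ⊆ S := by
    rw [hT]
    rintro x ((hx | hx) | hx)
    · exact f2 hx
    · have := hs _ (f2 hx)
      rwa [inv_inv] at this
    · exact hx.1
  have g2 : Subgroup.closure T = Subgroup.closure S₀ := by
    apply le_antisymm
    · rw [Subgroup.closure_le, hT]
      rintro x ((hx | hx) | hx)
      · exact Subgroup.subset_closure hx
      · have h4 : x⁻¹ ∈ Subgroup.closure S₀ := Subgroup.subset_closure hx
        have h3 := Subgroup.inv_mem _ h4
        rwa [inv_inv] at h3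
      · exact f3 hx.2
    · refine Subgroup.closure_mono ?_
      rw [hT]
      exact fun x hx => Or.inl (Or.inl hx)
  have g3 : (Subgroup.closure S₀).FG := ⟨f1.toFinset, by rw [f1.coe_toFinset]⟩
  refine sub h Γ S T h1 g1 ?_ ?_ (by rw [g2]; exact g3) ?_
  · rw [hT]
    exact hi.mono Set.subset_union_right
  · rw [hT]
    rintro x ((hx | hx) | hx)
    · refine Or.inl (Or.inr ?_)
      show x⁻¹⁻¹ ∈ S₀
      rwa [inv_inv]
    · exact Or.inl (Or.inl hx)
    · exact Or.inr ⟨hs _ hx.1, K.inv_mem hx.2⟩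
  · rw [g2]
    exact hL _ g3

end Pool.Agent.Helper70.BT
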